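import Pool.Agent.Helper15.T8.Stmts

set_option autoImplicit false

/-!
Module TYP of T8: the mean number of exceptional vertices is bounded.
-/

open Finset

namespace Pool.Agent.Helper38.T8

open Pool.Agent.Helper15.T8

theorem card_TT_le {n D : ℕ} (W : Finset (Fin n)) (hW : W.card ≤ 1) (E : Finset (Sym2 (Fin n))) :
    (TT n D E).card ≤ (Wᶜ.filter (fun v => dg E v + 2 ≤ D)).card +
      ((univ : Finset (Fin n × Fin n)).filter (fun p => p.1 ≠ p.2 ∧ s(p.1, p.2) ∈ E ∧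
        dg E p.1 < D ∧ dg E p.2 < D)).card + 1 := by
  have hsub : TT n D E ⊆ (Wᶜ.filter (fun v => dg E v + 2 ≤ D)) ∪
      (((univ : Finset (Fin n × Fin n)).filter (fun p => p.1 ≠ p.2 ∧ s(p.1, p.2) ∈ E ∧
        dg E p.1 < D ∧ dg E p.2 < D)).image Prod.fst) ∪ W := by
    intro v hv
    rw [TT, mem_filter] at hv
    rw [mem_union, mem_union]
    by_cases hw : v ∈ W
    · exact Or.inr hw
    · left
      rcases hv.2 with h | ⟨h1, u, h2, h3, h4⟩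
      · left
        exact mem_filter.2 ⟨mem_compl.2 hw, h⟩
      · right
        refine mem_image.2 ⟨(v, u), mem_filter.2 ⟨mem_univ _, h2.symm, ?_, h1, h3⟩, rfl⟩
        rw [Sym2.eq_swap]
        exact h4
  refine (card_le_card hsub).trans ((card_union_le _ _).trans ?_)
  refine add_le_add ((card_union_le _ _).trans ?_) hW
  exact add_le_add le_rfl card_image_le

theorem st_TYP (h1 : ST_SW1) (h2 : ST_SW2) : ST_TYP := by
  intro D C hD
  set C' : ℝ := max C 0 with hC'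
  have hC0 : 0 ≤ C' := le_max_right _ _
  refine ⟨2 * (D : ℝ) * C' ^ 2 + 2 * (D : ℝ) ^ 2 * C' ^ 2 + 1, max (20 + 8 * D) (⌈(4 * C') ^ 2⌉₊) + 1,
    fun n W j hn hW hj hF => ?_⟩
  have hn1 : 20 + 8 * D ≤ n := (le_max_left _ _).trans ((Nat.le_succ _).trans hn)
  have hn2 : ⌈(4 * C') ^ 2⌉₊ ≤ n := (le_max_right _ _).trans ((Nat.le_succ _).trans hn)
  have hn3 : (4 * C') ^ 2 ≤ (n : ℝ) := (Nat.le_ceil _).trans (by exact_mod_cast hn2)
  have hDr : (1 : ℝ) ≤ D := by exact_mod_cast hD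
  have hnr : (20 : ℝ) + 8 * D ≤ n := by exact_mod_cast hn1
  set s : ℝ := Real.sqrt n with hs
  have hs0 : 0 ≤ s := Real.sqrt_nonneg _
  have hss : s ^ 2 = n := Real.sq_sqrt (Nat.cast_nonneg n)
  have hs4 : 4 * C' ≤ s := by
    rw [hs]
    exact Real.le_sqrt_of_sq_le hn3
  have hFn : (0 : ℝ) ≤ (FJ n D W j : ℝ) := Nat.cast_nonneg _
  have hF' : (FJ n D W j : ℝ) ≤ C' * s :=
    hF.trans (mul_le_mul_of_nonneg_right (le_max_left _ _) hs0)
  have hF2 : (FJ n D W j : ℝ) ^ 2 ≤ C' ^ 2 * n := by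
    rw [← hss, ← mul_pow]
    exact pow_le_pow_left₀ hFn hF' 2
  have hjn : ((n : ℝ) - 1) * D - C' * s ≤ 2 * (j : ℝ) := by
    have hFJ : FJ n D W j + 2 * j = (n - W.card) * D := by
      unfold FJ
      omega
    have h3 : ((n - 1) * D : ℕ) ≤ FJ n D W j + 2 * j := by
      rw [hFJ]
      exact Nat.mul_le_mul_right D (Nat.sub_le_sub_left hW n)
    have h4 : (((n - 1 : ℕ) * D : ℕ) : ℝ) ≤ (FJ n D W j : ℝ) + 2 * (j : ℝ) := by exact_mod_cast h3
    rw [Nat.cast_mul, Nat.cast_sub (by omega), Nat.cast_one] at h4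
    linarith
  have hkey : (n : ℝ) / 2 ≤ 2 * (j : ℝ) - 4 * D - 2 * (D : ℝ) ^ 2 := by
    have e1 : C' * s ≤ (n : ℝ) / 4 := by
      rw [← hss]
      nlinarith
    have e2 : (n : ℝ) * 1 ≤ (n : ℝ) * D := mul_le_mul_of_nonneg_left hDr (Nat.cast_nonneg n)
    have e3 : (20 + 8 * (D : ℝ)) * D ≤ n * D :=
      mul_le_mul_of_nonneg_right hnr (by linarith)
    nlinarith
  have hkey1 : (n : ℝ) / 2 ≤ 2 * (j : ℝ) - 2 * D - (D : ℝ) ^ 2 := by
    have : (0 : ℝ) ≤ (D : ℝ) ^ 2 := sq_nonneg _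
    linarith
  have hn0 : (0 : ℝ) < n := by linarith
  have hG : (0 : ℝ) ≤ ((GJ n D W j).card : ℝ) := Nat.cast_nonneg _
  set SA : ℝ := ∑ E ∈ GJ n D W j, (((Wᶜ.filter (fun v => dg E v + 2 ≤ D)).card : ℕ) : ℝ) with hSA
  set SP : ℝ := ∑ E ∈ GJ n D W j,
    ((((univ : Finset (Fin n × Fin n)).filter (fun p => p.1 ≠ p.2 ∧ s(p.1, p.2) ∈ E ∧
      dg E p.1 < D ∧ dg E p.2 < D)).card : ℕ) : ℝ) with hSP
  have hSA0 : 0 ≤ SA := sum_nonneg fun E _ => Nat.cast_nonneg _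
  have hSP0 : 0 ≤ SP := sum_nonneg fun E _ => Nat.cast_nonneg _
  have a1 : (n : ℝ) / 2 * SA ≤ D * (C' ^ 2 * n) * ((GJ n D W j).card : ℝ) := by
    refine (mul_le_mul_of_nonneg_right hkey1 hSA0).trans ((h1 n D W j).trans ?_)
    exact mul_le_mul_of_nonneg_right (mul_le_mul_of_nonneg_left hF2 (by linarith)) hG
  have a2 : (n : ℝ) / 2 * SP ≤ (D : ℝ) ^ 2 * (C' ^ 2 * n) * ((GJ n D W j).card : ℝ) := by
    refine (mul_le_mul_of_nonneg_right hkey hSP0).trans ((h2 n D W j).trans ?_)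
    exact mul_le_mul_of_nonneg_right (mul_le_mul_of_nonneg_left hF2 (sq_nonneg _)) hG
  have b1 : SA ≤ 2 * (D : ℝ) * C' ^ 2 * ((GJ n D W j).card : ℝ) := by
    have : (n : ℝ) * SA ≤ n * (2 * (D : ℝ) * C' ^ 2 * ((GJ n D W j).card : ℝ)) := by linarith
    exact le_of_mul_le_mul_left this hn0
  have b2 : SP ≤ 2 * (D : ℝ) ^ 2 * C' ^ 2 * ((GJ n D W j).card : ℝ) := by
    have : (n : ℝ) * SP ≤ n * (2 * (D : ℝ) ^ 2 * C' ^ 2 * ((GJ n D W j).card : ℝ)) := by linarith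
    exact le_of_mul_le_mul_left this hn0
  calc ∑ E ∈ GJ n D W j, (((TT n D E).card : ℕ) : ℝ)
      ≤ ∑ E ∈ GJ n D W j, ((((Wᶜ.filter (fun v => dg E v + 2 ≤ D)).card : ℕ) : ℝ) +
        ((((univ : Finset (Fin n × Fin n)).filter (fun p => p.1 ≠ p.2 ∧ s(p.1, p.2) ∈ E ∧
          dg E p.1 < D ∧ dg E p.2 < D)).card : ℕ) : ℝ) + 1) := by
        refine sum_le_sum fun E _ => ?_
        exact_mod_cast card_TT_le W hW E
    _ = SA + SP + ((GJ n D W j).card : ℝ) := by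
        rw [sum_add_distrib, sum_add_distrib, sum_const, nsmul_eq_mul, mul_one]
    _ ≤ _ := by linarith

end Pool.Agent.Helper38.T8
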