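import Pool.Agent.Helper15.T8.Stmts

set_option autoImplicit false

/-!
Module DCT of T8: double counting of the pairs (graph, regular graph that contains it).
-/

open Finset

namespace Pool.Agent.Helper38.T8

open Pool.Agent.Helper15.T8

theorem dg_mono {n : ℕ} {E E' : Finset (Sym2 (Fin n))} (h : E ⊆ E') (v : Fin n) :
    dg E v ≤ dg E' v := by
  unfold dg
  exact card_le_card (filter_subset_filter _ h)

/-- The subgraphs of a regular graph with `j` edges that avoid `W`. -/
theorem filter_eq {n D j : ℕ} {W : Finset (Fin n)} {E' : Finset (Sym2 (Fin n))}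
    (hE' : E' ∈ RG n D) :
    (GJ n D W j).filter (fun E => E ⊆ E') =
      powersetCard j (E'.filter (fun e => ∀ v ∈ W, v ∉ e)) := by
  ext E
  simp only [GJ, GW, RG, mem_filter, mem_univ, true_and, mem_powersetCard] at hE' ⊢
  obtain ⟨hd, hr⟩ := hE'
  constructor
  · rintro ⟨⟨⟨_, _, h3⟩, h4⟩, h5⟩
    refine ⟨fun e he => ?_, h4⟩
    rw [mem_filter]
    refine ⟨h5 he, fun v hv hve => ?_⟩
    have := h3 v hv
    unfold dg at this
    rw [card_eq_zero] at this
    have h6 : e ∈ E.filter (fun e => v ∈ e) := mem_filter.2 ⟨he, hve⟩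
    rw [this] at h6
    exact absurd h6 (notMem_empty e)
  · rintro ⟨h1, h2⟩
    have h3 : E ⊆ E' := h1.trans (filter_subset _ _)
    refine ⟨⟨⟨fun e he => hd e (h3 he), fun v => ?_, fun v hv => ?_⟩, h2⟩, h3⟩
    · exact (dg_mono h3 v).trans (hr v).le
    · unfold dg
      rw [card_eq_zero, filter_eq_empty_iff]
      intro e he hve
      exact (mem_filter.1 (h1 he)).2 v hv hve

theorem card_avoid (hB : ST_BAS) {n D : ℕ} {W : Finset (Fin n)} {E' : Finset (Sym2 (Fin n))}
    (hW : W.card ≤ 1) (hE' : E' ∈ RG n D) :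
    (E'.filter (fun e => ∀ v ∈ W, v ∉ e)).card = n * D / 2 - D * W.card := by
  have hr : ∀ v, dg E' v = D := (mem_filter.1 hE').2.2
  have hd : ∀ e ∈ E', ¬ e.IsDiag := (mem_filter.1 hE').2.1
  have hmem : E' ∈ GJ n D ∅ E'.card := by
    refine mem_filter.2 ⟨mem_filter.2 ⟨mem_univ _, hd, fun v => (hr v).le, ?_⟩, rfl⟩
    intro v hv
    exact absurd hv (notMem_empty v)
  have h2 := (hB n D ∅ _ E' hmem).2.2.2
  have h3 : n * D = 2 * E'.card := by
    rw [← h2, sum_congr rfl (fun v _ => hr v)]
    simp
  have h4 : n * D / 2 = E'.card := by omega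
  rw [h4]
  rcases Nat.le_one_iff_eq_zero_or_eq_one.1 hW with h0 | h1
  · rw [card_eq_zero] at h0
    subst h0
    simp
  · obtain ⟨w, rfl⟩ := card_eq_one.1 h1
    have h5 := card_filter_add_card_filter_not (s := E') (p := fun e => w ∈ e)
    have h6 : dg E' w = D := hr w
    unfold dg at h6
    have h7 : E'.filter (fun e => ∀ v ∈ ({w} : Finset (Fin n)), v ∉ e) =
        E'.filter (fun e => ¬ w ∈ e) := by
      apply filter_congr
      intro e _
      simp
    rw [h7, card_singleton, mul_one]
    omega

theorem st_DCT (hB : ST_BAS) : ST_DCT := by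
  intro n D W B _ hW hmono j
  constructor
  · have h := sum_card_bipartiteAbove_eq_sum_card_bipartiteBelow (s := GJ n D W j) (t := RG n D)
      (fun E E' => E ⊆ E')
    simp only [bipartiteAbove, bipartiteBelow] at h
    calc ∑ E ∈ GJ n D W j, cp n D E
        = ∑ E ∈ GJ n D W j, ((RG n D).filter (fun E' => E ⊆ E')).card := rfl
      _ = ∑ E' ∈ RG n D, ((GJ n D W j).filter (fun E => E ⊆ E')).card := h
      _ = ∑ E' ∈ RG n D, (n * D / 2 - D * W.card).choose j := by
          refine sum_congr rfl fun E' hE' => ?_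
          rw [filter_eq hE', card_powersetCard, card_avoid hB hW hE']
      _ = _ := by rw [sum_const, smul_eq_mul]
  · have h := sum_card_bipartiteAbove_eq_sum_card_bipartiteBelow (s := (GJ n D W j).filter B)
      (t := RG n D) (fun E E' => E ⊆ E')
    simp only [bipartiteAbove, bipartiteBelow] at h
    calc ∑ E ∈ (GJ n D W j).filter B, cp n D E
        = ∑ E ∈ (GJ n D W j).filter B, ((RG n D).filter (fun E' => E ⊆ E')).card := rfl
      _ = ∑ E' ∈ RG n D, (((GJ n D W j).filter B).filter (fun E => E ⊆ E')).card := h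
      _ ≤ ∑ E' ∈ RG n D, if B E' then (n * D / 2 - D * W.card).choose j else 0 := by
          refine sum_le_sum fun E' hE' => ?_
          split_ifs with hb
          · rw [← card_avoid hB hW hE', ← card_powersetCard, ← filter_eq hE']
            exact card_le_card (filter_subset_filter _ (filter_subset _ _))
          · rw [Nat.le_zero, card_eq_zero, filter_eq_empty_iff]
            intro E hE hs
            exact hb (hmono E E' hs (mem_filter.1 hE).2)
      _ = _ := by rw [← sum_filter, sum_const, smul_eq_mul]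

end Pool.Agent.Helper38.T8
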